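import Mathlib

/-!
# Difference index versus half the sum index: a constant-factor excess

For `G = K_{1,k,k}` we show `2k ≤ sm(G) ≤ 2k+1` and `3 df(G) ≥ 4k - 1`.
-/

namespace Pool.Agent.Results.MP_ee2194_co.DiffIndexExcess

open scoped Pointwise

/-- The set of values taken by `f_+(uv) = f(u) + f(v)` on the edges of `G`. -/
def sumLabels {V : Type} (G : SimpleGraph V) (f : V → ℤ) : Set ℤ :=
  {z | ∃ u v : V, G.Adj u v ∧ z = f u + f v}

/-- The set of values taken by `f_-(uv) = |f(u) - f(v)|` on the edges of `G`. -/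
def diffLabels {V : Type} (G : SimpleGraph V) (f : V → ℤ) : Set ℤ :=
  {z | ∃ u v : V, G.Adj u v ∧ z = |f u - f v|}

/-- The sum index: the minimum, over injective `f : V → ℤ`, of the number of distinct values
taken by `f_+` on the edges. -/
noncomputable def sumIndex {V : Type} (G : SimpleGraph V) : ℕ :=
  sInf {n : ℕ | ∃ f : V → ℤ, Function.Injective f ∧ (sumLabels G f).ncard = n}

/-- The difference index: the minimum, over injective `f : V → ℤ`, of the number of distinct
values taken by `f_-` on the edges. -/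
noncomputable def diffIndex {V : Type} (G : SimpleGraph V) : ℕ :=
  sInf {n : ℕ | ∃ f : V → ℤ, Function.Injective f ∧ (diffLabels G f).ncard = n}

/-! ### The additive-combinatorial core -/

lemma core {k : ℕ} {A B D : Finset ℤ} (hA : A.card = k) (hB : B.card = k)
    (hAB : Disjoint A B) (h0A : (0 : ℤ) ∉ A) (h0B : (0 : ℤ) ∉ B)
    (hDA : ∀ a ∈ A, |a| ∈ D) (hDB : ∀ b ∈ B, |b| ∈ D)
    (hDAB : ∀ a ∈ A, ∀ b ∈ B, |a - b| ∈ D)
    {m : ℤ} (hm : m ∈ A) (hmpos : 0 < m) (hmA : ∀ a ∈ A, |a| ≤ m) (hmB : ∀ b ∈ B, |b| ≤ m) :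
    4 * k ≤ 3 * D.card + 1 := by
  classical
  set Ap := A.filter (fun x => 0 < x) with hAp
  set An := A.filter (fun x => ¬ 0 < x) with hAn
  set Bp := B.filter (fun x => 0 < x) with hBp
  set Bn := B.filter (fun x => ¬ 0 < x) with hBn
  have cA : Ap.card + An.card = k := by
    rw [← hA]; exact Finset.card_filter_add_card_filter_not _
  have cB : Bp.card + Bn.card = k := by
    rw [← hB]; exact Finset.card_filter_add_card_filter_not _
  have hAnneg : ∀ x ∈ An, x < 0 := by
    intro x hx
    rw [hAn, Finset.mem_filter] at hx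
    rcases lt_trichotomy x 0 with h | h | h
    · exact h
    · exact absurd (h ▸ hx.1) h0A
    · exact absurd h hx.2
  have hBnneg : ∀ x ∈ Bn, x < 0 := by
    intro x hx
    rw [hBn, Finset.mem_filter] at hx
    rcases lt_trichotomy x 0 with h | h | h
    · exact h
    · exact absurd (h ▸ hx.1) h0B
    · exact absurd h hx.2
  -- the far differences
  set F := Bn.image (fun b => m - b) with hF
  have cF : F.card = Bn.card := by
    rw [hF, Finset.card_image_of_injective]
    intro x y hxy
    simpa using hxy
  have hFD : F ⊆ D := by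
    intro z hz
    rw [hF, Finset.mem_image] at hz
    obtain ⟨b, hb, rfl⟩ := hz
    have h1 := hBnneg b hb
    have h2 := hDAB m hm b (Finset.mem_of_mem_filter _ hb)
    rwa [abs_of_pos (by linarith)] at h2
  have hFgt : ∀ z ∈ F, m < z := by
    intro z hz
    rw [hF, Finset.mem_image] at hz
    obtain ⟨b, hb, rfl⟩ := hz
    have h1 := hBnneg b hb
    linarith
  -- positive labels
  have e1 : Ap.card + Bp.card + Bn.card ≤ D.card := by
    have hd1 : Disjoint Ap Bp := Finset.disjoint_filter_filter hAB
    have hd2 : Disjoint (Ap ∪ Bp) F := by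
      rw [Finset.disjoint_left]
      intro z hz hzF
      have h1 := hFgt z hzF
      rw [Finset.mem_union] at hz
      rcases hz with h | h
      · have h2 := hmA z (Finset.mem_of_mem_filter _ h)
        exact absurd (lt_of_lt_of_le h1 ((le_abs_self z).trans h2)) (lt_irrefl _)
      · have h2 := hmB z (Finset.mem_of_mem_filter _ h)
        exact absurd (lt_of_lt_of_le h1 ((le_abs_self z).trans h2)) (lt_irrefl _)
    have hsub : (Ap ∪ Bp) ∪ F ⊆ D := by
      apply Finset.union_subset _ hFD
      intro z hz
      rw [Finset.mem_union] at hz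
      rcases hz with h | h
      · rw [hAp, Finset.mem_filter] at h
        have := hDA z h.1
        rwa [abs_of_pos h.2] at this
      · rw [hBp, Finset.mem_filter] at h
        have := hDB z h.1
        rwa [abs_of_pos h.2] at this
    have := Finset.card_le_card hsub
    rw [Finset.card_union_of_disjoint hd2, Finset.card_union_of_disjoint hd1, cF] at this
    exact this
  -- negative labels
  have e2 : An.card + Bn.card + Bn.card ≤ D.card := by
    have hd1 : Disjoint An Bn := Finset.disjoint_filter_filter hAB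
    have hd2 : Disjoint ((An ∪ Bn).image (fun x => -x)) F := by
      rw [Finset.disjoint_left]
      intro z hz hzF
      have h1 := hFgt z hzF
      rw [Finset.mem_image] at hz
      obtain ⟨x, hx, rfl⟩ := hz
      rw [Finset.mem_union] at hx
      rcases hx with h | h
      · have h2 := hmA x (Finset.mem_of_mem_filter _ h)
        exact absurd (lt_of_lt_of_le h1 ((neg_le_abs x).trans h2)) (lt_irrefl _)
      · have h2 := hmB x (Finset.mem_of_mem_filter _ h)
        exact absurd (lt_of_lt_of_le h1 ((neg_le_abs x).trans h2)) (lt_irrefl _)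
    have hsub : ((An ∪ Bn).image (fun x => -x)) ∪ F ⊆ D := by
      apply Finset.union_subset _ hFD
      intro z hz
      rw [Finset.mem_image] at hz
      obtain ⟨x, hx, rfl⟩ := hz
      rw [Finset.mem_union] at hx
      rcases hx with h | h
      · have h3 := hAnneg x h
        have := hDA x (Finset.mem_of_mem_filter _ h)
        rwa [abs_of_neg h3] at this
      · have h3 := hBnneg x h
        have := hDB x (Finset.mem_of_mem_filter _ h)
        rwa [abs_of_neg h3] at this
    have := Finset.card_le_card hsub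
    rw [Finset.card_union_of_disjoint hd2, Finset.card_image_of_injective _ neg_injective,
      Finset.card_union_of_disjoint hd1, cF] at this
    exact this
  -- differences between `Bp` and `An`
  have e3 : Bp.Nonempty → An.Nonempty → Bp.card + An.card ≤ D.card + 1 := by
    intro h1 h2
    have h2' : (An.image (fun x => -x)).Nonempty := h2.image _
    have hcd := cauchy_davenport_add_of_linearOrder_isCancelAdd h1 h2'
    have hsub : Bp + An.image (fun x => -x) ⊆ D := by
      intro z hz
      rw [Finset.mem_add] at hz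
      obtain ⟨b, hb, c, hc, rfl⟩ := hz
      rw [Finset.mem_image] at hc
      obtain ⟨a, ha, rfl⟩ := hc
      rw [hBp, Finset.mem_filter] at hb
      have h3 := hAnneg a ha
      have h4 := hDAB a (Finset.mem_of_mem_filter _ ha) b hb.1
      rw [abs_of_neg (by linarith [hb.2])] at h4
      have h5 : b + -a = -(a - b) := by ring
      rw [h5]; exact h4
    have h6 := Finset.card_le_card hsub
    rw [Finset.card_image_of_injective _ neg_injective] at hcd
    omega
  rcases Finset.eq_empty_or_nonempty Bp with h | h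
  · rw [h, Finset.card_empty] at cB
    omega
  · rcases Finset.eq_empty_or_nonempty An with h' | h'
    · rw [h', Finset.card_empty] at cA
      omega
    · have := e3 h h'
      omega

lemma core' {k : ℕ} {A B D : Finset ℤ} (hk : 0 < k) (hA : A.card = k) (hB : B.card = k)
    (hAB : Disjoint A B) (h0A : (0 : ℤ) ∉ A) (h0B : (0 : ℤ) ∉ B)
    (hDA : ∀ a ∈ A, |a| ∈ D) (hDB : ∀ b ∈ B, |b| ∈ D)
    (hDAB : ∀ a ∈ A, ∀ b ∈ B, |a - b| ∈ D) :
    4 * k ≤ 3 * D.card + 1 := by
  classical
  have hne : (A ∪ B).Nonempty := by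
    rw [← Finset.card_pos]
    have := Finset.card_le_card (Finset.subset_union_left (s₁ := A) (s₂ := B))
    omega
  obtain ⟨x, hx, hmax⟩ := Finset.exists_max_image (A ∪ B) (fun x => |x|) hne
  have hDBA : ∀ a ∈ B, ∀ b ∈ A, |a - b| ∈ D := by
    intro a ha b hb
    rw [abs_sub_comm]; exact hDAB b hb a ha
  have hmaxA : ∀ a ∈ A, |a| ≤ |x| := fun a ha => hmax a (Finset.mem_union_left _ ha)
  have hmaxB : ∀ a ∈ B, |a| ≤ |x| := fun a ha => hmax a (Finset.mem_union_right _ ha)
  -- negated sets
  have key : ∀ (S T : Finset ℤ), S.card = k → T.card = k → Disjoint S T → (0 : ℤ) ∉ S →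
      (0 : ℤ) ∉ T → (∀ a ∈ S, |a| ∈ D) → (∀ b ∈ T, |b| ∈ D) →
      (∀ a ∈ S, ∀ b ∈ T, |a - b| ∈ D) → x ∈ S → (∀ a ∈ S, |a| ≤ |x|) → (∀ a ∈ T, |a| ≤ |x|) →
      4 * k ≤ 3 * D.card + 1 := by
    intro S T hS hT hST h0S h0T hDS hDT hDST hxS hmS hmT
    rcases lt_trichotomy x 0 with h | h | h
    · have hinj : Function.Injective (fun z : ℤ => -z) := neg_injective
      refine core (A := S.image (fun z => -z)) (B := T.image (fun z => -z)) (D := D) (m := -x)
        ?_ ?_ ?_ ?_ ?_ ?_ ?_ ?_ ?_ ?_ ?_ ?_
      · rw [Finset.card_image_of_injective _ hinj, hS]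
      · rw [Finset.card_image_of_injective _ hinj, hT]
      · rw [Finset.disjoint_image hinj]; exact hST
      · simpa using h0S
      · simpa using h0T
      · intro a ha
        rw [Finset.mem_image] at ha
        obtain ⟨s, hs, rfl⟩ := ha
        rw [abs_neg]; exact hDS s hs
      · intro a ha
        rw [Finset.mem_image] at ha
        obtain ⟨s, hs, rfl⟩ := ha
        rw [abs_neg]; exact hDT s hs
      · intro a ha b hb
        rw [Finset.mem_image] at ha hb
        obtain ⟨s, hs, rfl⟩ := ha
        obtain ⟨t, ht, rfl⟩ := hb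
        have h1 := hDST s hs t ht
        have h2 : -s - -t = -(s - t) := by ring
        rw [h2, abs_neg]; exact h1
      · exact Finset.mem_image_of_mem _ hxS
      · linarith
      · intro a ha
        rw [Finset.mem_image] at ha
        obtain ⟨s, hs, rfl⟩ := ha
        have := hmS s hs
        rw [abs_neg]; rwa [abs_of_neg h] at this
      · intro a ha
        rw [Finset.mem_image] at ha
        obtain ⟨s, hs, rfl⟩ := ha
        have := hmT s hs
        rw [abs_neg]; rwa [abs_of_neg h] at this
    · exact absurd (h ▸ hxS) h0S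
    · refine core (A := S) (B := T) (D := D) (m := x) hS hT hST h0S h0T hDS hDT hDST hxS h ?_ ?_
      · intro a ha; have := hmS a ha; rwa [abs_of_pos h] at this
      · intro a ha; have := hmT a ha; rwa [abs_of_pos h] at this
  rw [Finset.mem_union] at hx
  rcases hx with hx | hx
  · exact key A B hA hB hAB h0A h0B hDA hDB hDAB hx hmaxA hmaxB
  · exact key B A hB hA hAB.symm h0B h0A hDB hDA hDBA hx hmaxB hmaxA

/-! ### The graph `K_{1,k,k}` -/

/-- The complete tripartite graph `K_{1,k,k}`: the vertex `none` is joined to everything, and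
`some (inl i)` is joined to `some (inr j)` for all `i`, `j`. -/
def K1kk (k : ℕ) : SimpleGraph (Option (Fin k ⊕ Fin k)) where
  Adj x y := x ≠ y ∧ ∀ u v, x = some u → y = some v → (u.isLeft ↔ ¬ v.isLeft)
  symm := ⟨by
    rintro x y ⟨h1, h2⟩
    refine ⟨h1.symm, fun u v hu hv => ?_⟩
    have := h2 v u hv hu
    tauto⟩
  loopless := ⟨fun x h => h.1 rfl⟩

lemma finite_sumLabels {V : Type} [Finite V] (G : SimpleGraph V) (f : V → ℤ) :
    (sumLabels G f).Finite := by
  apply (Set.finite_range (fun p : V × V => f p.1 + f p.2)).subset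
  rintro z ⟨u, v, -, rfl⟩
  exact ⟨(u, v), rfl⟩

lemma finite_diffLabels {V : Type} [Finite V] (G : SimpleGraph V) (f : V → ℤ) :
    (diffLabels G f).Finite := by
  apply (Set.finite_range (fun p : V × V => |f p.1 - f p.2|)).subset
  rintro z ⟨u, v, -, rfl⟩
  exact ⟨(u, v), rfl⟩

lemma sumIndex_le {V : Type} (G : SimpleGraph V) (f : V → ℤ) (hf : Function.Injective f) :
    sumIndex G ≤ (sumLabels G f).ncard :=
  Nat.sInf_le ⟨f, hf, rfl⟩

lemma exists_injective_int (V : Type) [Finite V] : ∃ g : V → ℤ, Function.Injective g := by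
  have := Fintype.ofFinite V
  refine ⟨fun x => (((Fintype.equivFin V) x : ℕ) : ℤ), fun a b hab => ?_⟩
  have h1 : (((Fintype.equivFin V) a : ℕ) : ℤ) = (((Fintype.equivFin V) b : ℕ) : ℤ) := hab
  have h2 : ((Fintype.equivFin V) a : ℕ) = ((Fintype.equivFin V) b : ℕ) := by exact_mod_cast h1
  exact (Fintype.equivFin V).injective (Fin.ext h2)

lemma le_sumIndex {V : Type} [Finite V] (G : SimpleGraph V) {n : ℕ}
    (h : ∀ f : V → ℤ, Function.Injective f → n ≤ (sumLabels G f).ncard) : n ≤ sumIndex G := by
  obtain ⟨g, hg⟩ := exists_injective_int V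
  have hne : {n : ℕ | ∃ f : V → ℤ, Function.Injective f ∧ (sumLabels G f).ncard = n}.Nonempty :=
    ⟨_, g, hg, rfl⟩
  refine le_csInf hne ?_
  rintro m ⟨f, hf, rfl⟩
  exact h f hf

lemma le_diffIndex {V : Type} [Finite V] (G : SimpleGraph V) {n : ℕ}
    (h : ∀ f : V → ℤ, Function.Injective f → n ≤ (diffLabels G f).ncard) : n ≤ diffIndex G := by
  obtain ⟨g, hg⟩ := exists_injective_int V
  have hne : {n : ℕ | ∃ f : V → ℤ, Function.Injective f ∧ (diffLabels G f).ncard = n}.Nonempty :=
    ⟨_, g, hg, rfl⟩
  refine le_csInf hne ?_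
  rintro m ⟨f, hf, rfl⟩
  exact h f hf

lemma sumIndex_K1kk_le (k : ℕ) : sumIndex (K1kk k) ≤ 2 * k + 1 := by
  classical
  let f : Option (Fin k ⊕ Fin k) → ℤ := fun x => match x with
    | none => (k : ℤ)
    | some (Sum.inl i) => ((i : ℕ) : ℤ)
    | some (Sum.inr i) => (k : ℤ) + 1 + ((i : ℕ) : ℤ)
  have hinj : Function.Injective f := by
    rintro (_ | (i | i)) (_ | (j | j)) h
    · rfl
    · simp only [f] at h; have := j.isLt; omega
    · simp only [f] at h; omega
    · simp only [f] at h; have := i.isLt; omega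
    · simp only [f] at h
      have : i = j := Fin.ext (by omega)
      rw [this]
    · simp only [f] at h; have := i.isLt; omega
    · simp only [f] at h; omega
    · simp only [f] at h; have := j.isLt; omega
    · simp only [f] at h
      have : i = j := Fin.ext (by omega)
      rw [this]
  refine (sumIndex_le _ f hinj).trans ?_
  have hsub : sumLabels (K1kk k) f ⊆ ((Finset.Icc (k : ℤ) (3 * k) : Finset ℤ) : Set ℤ) := by
    rintro z ⟨u, v, ⟨hne, h2⟩, rfl⟩
    rw [Finset.coe_Icc, Set.mem_Icc]
    rcases u with (_ | (i | i)) <;> rcases v with (_ | (j | j))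
    · exact absurd rfl hne
    · simp only [f]; have := j.isLt; omega
    · simp only [f]; have := j.isLt; omega
    · simp only [f]; have := i.isLt; omega
    · have := h2 _ _ rfl rfl
      simp at this
    · simp only [f]; have := i.isLt; have := j.isLt; omega
    · simp only [f]; have := i.isLt; omega
    · simp only [f]; have := i.isLt; have := j.isLt; omega
    · have := h2 _ _ rfl rfl
      simp at this
  have := Set.ncard_le_ncard hsub (Finset.finite_toSet _)
  rw [Set.ncard_coe_finset, Int.card_Icc] at this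
  omega

lemma le_sumIndex_K1kk (k : ℕ) : 2 * k ≤ sumIndex (K1kk k) := by
  classical
  apply le_sumIndex
  intro f hf
  have hsub : (((Finset.univ : Finset (Fin k ⊕ Fin k)).image
      (fun x => f none + f (some x)) : Finset ℤ) : Set ℤ) ⊆ sumLabels (K1kk k) f := by
    intro z hz
    rw [Finset.mem_coe, Finset.mem_image] at hz
    obtain ⟨x, -, rfl⟩ := hz
    exact ⟨none, some x, ⟨by simp, by simp⟩, rfl⟩
  have h1 := Set.ncard_le_ncard hsub (finite_sumLabels _ _)
  rw [Set.ncard_coe_finset, Finset.card_image_of_injective] at h1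
  · simp only [Finset.card_univ, Fintype.card_sum, Fintype.card_fin] at h1
    omega
  · intro x y hxy
    have : f (some x) = f (some y) := by
      have : f none + f (some x) = f none + f (some y) := hxy
      linarith
    exact Option.some_injective _ (hf this)

lemma le_diffIndex_K1kk (k : ℕ) (hk : 0 < k) : 4 * k ≤ 3 * diffIndex (K1kk k) + 1 := by
  classical
  have main : ∀ f : Option (Fin k ⊕ Fin k) → ℤ, Function.Injective f →
      (4 * k + 1) / 3 ≤ (diffLabels (K1kk k) f).ncard := by
    intro f hf
    have hfin := finite_diffLabels (K1kk k) f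
    set D : Finset ℤ := hfin.toFinset with hD
    have hDc : (diffLabels (K1kk k) f).ncard = D.card := Set.ncard_eq_toFinset_card _ hfin
    have hmem : ∀ z, z ∈ D ↔ z ∈ diffLabels (K1kk k) f := fun z => hfin.mem_toFinset
    set A : Finset ℤ := (Finset.univ : Finset (Fin k)).image
      (fun i => f (some (Sum.inl i)) - f none) with hA
    set B : Finset ℤ := (Finset.univ : Finset (Fin k)).image
      (fun i => f (some (Sum.inr i)) - f none) with hB
    have hAc : A.card = k := by
      rw [hA, Finset.card_image_of_injective, Finset.card_univ, Fintype.card_fin]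
      intro i j hij
      have h1 : f (some (Sum.inl i)) - f none = f (some (Sum.inl j)) - f none := hij
      have h2 : f (some (Sum.inl i)) = f (some (Sum.inl j)) := by linarith
      exact Sum.inl_injective (Option.some_injective _ (hf h2))
    have hBc : B.card = k := by
      rw [hB, Finset.card_image_of_injective, Finset.card_univ, Fintype.card_fin]
      intro i j hij
      have h1 : f (some (Sum.inr i)) - f none = f (some (Sum.inr j)) - f none := hij
      have h2 : f (some (Sum.inr i)) = f (some (Sum.inr j)) := by linarith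
      exact Sum.inr_injective (Option.some_injective _ (hf h2))
    have hdis : Disjoint A B := by
      rw [Finset.disjoint_left]
      intro z hzA hzB
      rw [hA, Finset.mem_image] at hzA
      rw [hB, Finset.mem_image] at hzB
      obtain ⟨i, -, rfl⟩ := hzA
      obtain ⟨j, -, hj⟩ := hzB
      have h2 : f (some (Sum.inr j)) = f (some (Sum.inl i)) := by linarith
      have h3 := Option.some_injective _ (hf h2)
      simp at h3
    have h0A : (0 : ℤ) ∉ A := by
      intro h
      rw [hA, Finset.mem_image] at h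
      obtain ⟨i, -, hi⟩ := h
      have h2 : f (some (Sum.inl i)) = f none := by linarith
      have h3 := hf h2
      simp at h3
    have h0B : (0 : ℤ) ∉ B := by
      intro h
      rw [hB, Finset.mem_image] at h
      obtain ⟨i, -, hi⟩ := h
      have h2 : f (some (Sum.inr i)) = f none := by linarith
      have h3 := hf h2
      simp at h3
    have hDA : ∀ a ∈ A, |a| ∈ D := by
      intro a ha
      rw [hA, Finset.mem_image] at ha
      obtain ⟨i, -, rfl⟩ := ha
      rw [hmem]
      exact ⟨some (Sum.inl i), none, ⟨by simp, by simp⟩, rfl⟩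
    have hDB : ∀ a ∈ B, |a| ∈ D := by
      intro a ha
      rw [hB, Finset.mem_image] at ha
      obtain ⟨i, -, rfl⟩ := ha
      rw [hmem]
      exact ⟨some (Sum.inr i), none, ⟨by simp, by simp⟩, rfl⟩
    have hDAB : ∀ a ∈ A, ∀ b ∈ B, |a - b| ∈ D := by
      intro a ha b hb
      rw [hA, Finset.mem_image] at ha
      rw [hB, Finset.mem_image] at hb
      obtain ⟨i, -, rfl⟩ := ha
      obtain ⟨j, -, rfl⟩ := hb
      rw [hmem]
      refine ⟨some (Sum.inl i), some (Sum.inr j), ⟨by simp, ?_⟩, ?_⟩
      · rintro u v hu hv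
        rw [Option.some_inj] at hu hv
        subst hu; subst hv
        simp
      · congr 1; ring
    have h := core' hk hAc hBc hdis h0A h0B hDA hDB hDAB
    rw [hDc]
    omega
  have := le_diffIndex (K1kk k) main
  omega

/-- **Main result.** There is a constant `β > 0` (here `β = 1/4`) such that for every `N` there
is a finite graph `G` with at least one edge, `sm(G) ≥ N` and `df(G) ≥ (1 + β) ⌈sm(G)/2⌉`. -/
theorem result :
    ∃ β : ℝ, 0 < β ∧ ∀ N : ℕ, ∃ (V : Type) (_ : Fintype V) (G : SimpleGraph V),
      (∃ u v : V, G.Adj u v) ∧ N ≤ sumIndex G ∧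
      (1 + β) * (⌈(sumIndex G : ℝ) / 2⌉ : ℝ) ≤ (diffIndex G : ℝ) := by
  refine ⟨1 / 4, by norm_num, fun N => ?_⟩
  set k : ℕ := N + 20 with hk
  refine ⟨Option (Fin k ⊕ Fin k), inferInstance, K1kk k, ?_, ?_, ?_⟩
  · exact ⟨none, some (Sum.inl ⟨0, by omega⟩), ⟨by simp, by simp⟩⟩
  · have := le_sumIndex_K1kk k
    omega
  · have h1 := sumIndex_K1kk_le k
    have h2 := le_diffIndex_K1kk k (by omega)
    have h3 : (⌈(sumIndex (K1kk k) : ℝ) / 2⌉ : ℤ) ≤ (k : ℤ) + 1 := by
      rw [Int.ceil_le]
      have : (sumIndex (K1kk k) : ℝ) ≤ 2 * k + 1 := by exact_mod_cast h1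
      push_cast
      linarith
    have h4 : ((⌈(sumIndex (K1kk k) : ℝ) / 2⌉ : ℤ) : ℝ) ≤ (k : ℝ) + 1 := by exact_mod_cast h3
    have h5 : 4 * (k : ℝ) ≤ 3 * (diffIndex (K1kk k) : ℝ) + 1 := by exact_mod_cast h2
    have h6 : (20 : ℝ) ≤ (k : ℝ) := by
      have : 20 ≤ k := by omega
      exact_mod_cast this
    linarith

end Pool.Agent.Results.MP_ee2194_co.DiffIndexExcess
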